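import Mathlib
import Pool.Agent.Results.MP_9bc296_ag.GenericSymmetric
import Pool.Agent.N186.HK.Main
import Pool.Agent.N729.HP.All
import Pool.Agent.N729.HQ.IG
import Pool.Agent.N729.HQ.IS
import Pool.Agent.N729.HQ.IH
import Pool.Agent.N633.HB.All

/-!
# Permanental ideals of generic, symmetric and Hankel matrices are prime only for `t = m = n`

Let `k` be a field of characteristic zero or of odd characteristic, and let `X` be an `m × n` matrix
of variables: generic, or symmetric (`m = n`), or Hankel. For `2 ≤ t ≤ min (m, n)` the ideal `P_t (X)`
generated by the permanents of the `t × t` submatrices is prime if and only if `t = m = n`.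

Idea. *If*: the permanent of a square matrix of one of the three types is irreducible; it has degree
one in the variable at the position `(0, 0)`, and its coefficient, which is irreducible by induction,
does not divide the rest.

*Only if*, generic and symmetric matrices: file `GenericSymmetric`.

*Only if*, Hankel matrices, `m ≤ n`. Suppose that `P_t` is prime. The transcendence degree of
`D = k[z] / P_t` is at least `t`. If `q` is a rational point of the variety of `P_t` at which the
tangent space (the common zeros of the gradients of the elements of `P_t`) has dimension less than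
`t`, then the transcendence degree is at most `t - 1`, a contradiction. If the tangent space has
dimension `t`, and is mapped bijectively to `k ^ S` by `t` of the coordinates, then every vector of
`k ^ S` comes from a derivation of a localization of `D`, and applying the derivation twice we see that
the second order term of every element of `P_t` with gradient zero vanishes on the tangent space. So
it is enough to find points with a tangent space of dimension less than `t`, or with a tangent space
of dimension `t` on which some second order term does not vanish.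

For `t < m` and `n ≥ 2 t - 2` this is in `N186/HK`, for `t < m ≤ n ≤ 2 t - 3` in `N729/HP`. For
`t = m < n ≤ 2 t - 2` (`N633/HB`), `e = n - t`:
* `e = 1`: the odd coordinates of the point are `1, 0, 0, …`. The even ones form two Hankel
  matrices, of the sizes `⌈t / 2⌉` and `⌊t / 2⌋`, with permanent zero and with invertible matrices of
  cofactors. The tangent space has dimension `t`, and the second order term of the permanent without
  the first column does not vanish on it. For odd `t` the point has coordinates in `k (g)`, `g` a
  further variable.
* `e = t - 2`: the point `z_2 = z_{t + 1} = 1`, `z_{2 t} = -1`; the tangent space has dimension `t`, and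
  the second order term of the difference of two of the permanents does not vanish on it.
* `2 ≤ e ≤ t - 3`: three families of points with at most five nonzero coordinates `1` or `-1` and
  nine small cases. Some rows `I` of the Hankel matrix have nonzero entries only in a few columns,
  and all permanents of this part vanish. In the large family the other rows and columns form a path
  with some chords, and all permanents of this part can be computed by contracting segments of the
  path. The tangent space has dimension less than `t`.
-/

set_option autoImplicit false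

namespace Pool.Agent.Results.MP_9bc296_ag.PermanentalPrimality

open Matrix

/-- The ideal `P_t(X)` generated by the permanents of all `t × t` submatrices of `X`. -/
def permIdeal {R : Type*} [CommRing R] {m n : ℕ} (t : ℕ) (X : Matrix (Fin m) (Fin n) R) :
    Ideal R :=
  Ideal.span {x | ∃ (r : Fin t ↪o Fin m) (c : Fin t ↪o Fin n), x = (X.submatrix r c).permanent}

/-- The generic `m × n` matrix: the entry at `(i, j)` is the variable with the name `(i, j)`. -/
noncomputable def generic (k : Type*) [Field k] (m n : ℕ) :
    Matrix (Fin m) (Fin n) (MvPolynomial (Fin m × Fin n) k) :=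
  Matrix.of fun i j => MvPolynomial.X (i, j)

/-- The symmetric `n × n` matrix: the entry at `(i, j)` is the variable whose name is the unordered
pair `s(i, j)`. -/
noncomputable def symm (k : Type*) [Field k] (n : ℕ) :
    Matrix (Fin n) (Fin n) (MvPolynomial (Sym2 (Fin n)) k) :=
  Matrix.of fun i j => MvPolynomial.X s(i, j)

/-- The `m × n` Hankel matrix of the independent variables `z_1, …, z_{m + n - 1}`. Rows, columns and
variables are numbered from `0` here, so that the entry at `(i, j)` is the variable number `i + j`. -/
noncomputable def hankel (k : Type*) [Field k] (m n : ℕ) :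
    Matrix (Fin m) (Fin n) (MvPolynomial (Fin (m + n - 1)) k) :=
  Matrix.of fun i j => MvPolynomial.X ⟨i.val + j.val, by omega⟩

lemma emb_eq {n : ℕ} (r : Fin n ↪o Fin n) : (r : Fin n → Fin n) = id := by
  refine (StrictMono.range_inj r.strictMono strictMono_id).1 ?_
  rw [(Finite.injective_iff_surjective.1 r.injective).range_eq, Set.range_id]

/-- If the permanent of a square matrix of polynomials is irreducible, `P_n` is prime. -/
lemma prime_of_irreducible {k σ : Type*} [Field k] {n : ℕ}
    (X : Matrix (Fin n) (Fin n) (MvPolynomial σ k)) (h : Irreducible X.permanent) :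
    (permIdeal n X).IsPrime := by
  have e : permIdeal n X = Ideal.span {X.permanent} := by
    unfold permIdeal
    congr 1
    ext x
    constructor
    · rintro ⟨r, c, rfl⟩
      rw [emb_eq r, emb_eq c, Matrix.submatrix_id_id]
      exact Set.mem_singleton _
    · intro hx
      rw [Set.mem_singleton_iff] at hx
      refine ⟨RelEmbedding.refl _, RelEmbedding.refl _, ?_⟩
      rw [hx]
      rfl
  rw [e, Ideal.span_singleton_prime h.ne_zero]
  exact h.prime

lemma isHankel (m n : ℕ) : Pool.Agent.N186.HK.IsHankel
    (fun (i : Fin m) (j : Fin n) => (⟨i.val + j.val, by omega⟩ : Fin (m + n - 1))) := by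
  intro i j i' j'
  rw [Fin.mk.injEq]

/-- the transposed matrix -/
lemma transpose_iff (k : Type*) [Field k] (m n t : ℕ) :
    (Pool.Agent.R831.PermIdeal.permIdeal t (Pool.Agent.N186.HK.vm k
      (fun (i : Fin n) (j : Fin m) => (⟨i.val + j.val, by omega⟩ : Fin (m + n - 1))))).IsPrime ↔
    (permIdeal t (hankel k m n)).IsPrime := by
  have h2 := Pool.Agent.R831.PermIdeal.permIdeal_transpose (t := t) (hankel k m n)
  have h3 : Pool.Agent.N186.HK.vm k (fun (i : Fin n) (j : Fin m) =>
      (⟨i.val + j.val, by omega⟩ : Fin (m + n - 1))) = (hankel k m n)ᵀ := by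
    ext1 i j
    simp only [Pool.Agent.N186.HK.vm, hankel, Matrix.transpose_apply, Matrix.of_apply,
      Nat.add_comm]
  rw [h3, h2]
  rfl

/-- Hankel matrices, the case `m ≤ n` -/
lemma aux {k : Type*} [Field k] (h2 : (2 : k) ≠ 0) {m n t : ℕ} (ht : 2 ≤ t) (hm : t ≤ m)
    (hmn : m ≤ n) (hne : ¬ (t = m ∧ t = n)) : ¬ (permIdeal t (hankel k m n)).IsPrime := by
  have hn : t < n := by omega
  rcases Nat.lt_or_ge t m with hm' | hm'
  · rcases Nat.lt_or_ge (2 * t) (n + 3) with h | h
    · refine Pool.Agent.N186.HK.aux h2 ht hm hmn (by omega) ?_ (isHankel m n)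
      have h3 : 2 * t - n ≤ 2 := by omega
      interval_cases h4 : 2 * t - n
      · simp
      · simp
      · simpa using h2
    · rw [← transpose_iff]
      exact Pool.Agent.N729.HP.interior k h2 (m + n - 1) n m t (by omega) hm' hmn (by omega)
  · have hmt : m = t := by omega
    subst hmt
    rcases Nat.lt_or_ge (2 * m) (n + 2) with h | h
    · refine Pool.Agent.N186.HK.aux h2 ht hm hmn (by omega) ?_ (isHankel m n)
      have h3 : 2 * m - n ≤ 1 := by omega
      interval_cases h4 : 2 * m - n <;> simp
    · rw [← transpose_iff]
      exact Pool.Agent.N633.HB.bd3 k h2 m n (m + n - 1) (by omega) (by omega) hn (by omega)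

/-- Hankel matrices -/
lemma hankel_not_prime {k : Type*} [Field k] (h2 : (2 : k) ≠ 0) {m n t : ℕ} (ht : 2 ≤ t)
    (hm : t ≤ m) (hn : t ≤ n) (hne : ¬ (t = m ∧ t = n)) :
    ¬ (permIdeal t (hankel k m n)).IsPrime := by
  rcases Nat.le_total m n with h | h
  · exact aux h2 ht hm h hne
  · intro h3
    refine aux h2 ht hn h (fun h' => hne h'.symm) ?_
    have h4 := Pool.Agent.R831.PermIdeal.permIdeal_transpose (t := t) (hankel k m n)
    have h5 : ∀ (N N' : ℕ) (e : N = N') (f : Fin n → Fin m → Fin N)
        (g : Fin n → Fin m → Fin N') (_ : ∀ i j, (f i j).val = (g i j).val)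
        (_ : (Pool.Agent.R831.PermIdeal.permIdeal t (Matrix.of fun i j =>
          (MvPolynomial.X (f i j) : MvPolynomial (Fin N) k))).IsPrime),
        (Pool.Agent.R831.PermIdeal.permIdeal t (Matrix.of fun i j =>
          (MvPolynomial.X (g i j) : MvPolynomial (Fin N') k))).IsPrime := by
      intro N N' e f g hfg hP
      subst e
      have : f = g := by
        funext i j
        exact Fin.ext (hfg i j)
      rw [← this]
      exact hP
    refine h5 (m + n - 1) (n + m - 1) (by omega) (fun i j => ⟨j.val + i.val, by omega⟩)
      (fun i j => ⟨i.val + j.val, by omega⟩) (fun i j => Nat.add_comm _ _) ?_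
    rw [show (Matrix.of fun (i : Fin n) (j : Fin m) => (MvPolynomial.X
      (⟨j.val + i.val, by omega⟩ : Fin (m + n - 1)) : MvPolynomial (Fin (m + n - 1)) k)) =
      (hankel k m n)ᵀ from rfl, h4]
    exact h3

/-- Let `k` be a field of characteristic `p ≠ 2` (that is, `p = 0` or `p` is an odd prime). For
`2 ≤ t ≤ min (m, n)`, the ideal generated by the permanents of the `t × t` submatrices of a generic or
a Hankel `m × n` matrix or, if `m = n`, of a symmetric `n × n` matrix of variables is prime if and
only if `t = m = n`. -/
theorem result (k : Type*) [Field k] (p : ℕ) [CharP k p] (hp : p ≠ 2) :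
    (∀ m n t : ℕ, 2 ≤ t → t ≤ m → t ≤ n →
      ((permIdeal t (generic k m n)).IsPrime ↔ t = m ∧ t = n)) ∧
    (∀ n t : ℕ, 2 ≤ t → t ≤ n → ((permIdeal t (symm k n)).IsPrime ↔ t = n)) ∧
    (∀ m n t : ℕ, 2 ≤ t → t ≤ m → t ≤ n →
      ((permIdeal t (hankel k m n)).IsPrime ↔ t = m ∧ t = n)) := by
  have h2 : (2 : k) ≠ 0 := by
    intro h
    have h1 : ((2 : ℕ) : k) = 0 := by exact_mod_cast h
    rw [CharP.cast_eq_zero_iff k p] at h1
    rcases CharP.char_is_prime_or_zero k p with h3 | h3
    · exact hp ((Nat.prime_dvd_prime_iff_eq h3 Nat.prime_two).1 h1)
    · subst h3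
      rw [zero_dvd_iff] at h1
      omega
  refine ⟨fun m n t ht hm hn => ⟨fun hP => ?_, fun h => ?_⟩,
    fun n t ht hn => ⟨fun hP => ?_, fun h => ?_⟩, fun m n t ht hm hn => ⟨fun hP => ?_, fun h => ?_⟩⟩
  · by_contra hne
    exact GenericSymmetric.result k h2 m n t ht hm hn hne _ _ (GenericSymmetric.generic m n) hP
  · obtain ⟨rfl, rfl⟩ := h
    exact prime_of_irreducible _ (Pool.Agent.N729.HQ.IG.t k t (by omega))
  · by_contra hne
    exact GenericSymmetric.result k h2 n n t ht hn hn (fun h => hne h.1) _ _
      (GenericSymmetric.symmetric n) hP
  · subst h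
    exact prime_of_irreducible _ (Pool.Agent.N729.HQ.IS.t k t (by omega))
  · by_contra hne
    exact hankel_not_prime h2 ht hm hn hne hP
  · obtain ⟨rfl, rfl⟩ := h
    exact prime_of_irreducible _ (Pool.Agent.N729.HQ.IH.t k t (by omega))

end Pool.Agent.Results.MP_9bc296_ag.PermanentalPrimality
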